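import Pool.Agent.Helper28_TP.AsmF
import Pool.Agent.Helper47_TP.Ats

/-! # Tail of the percolation time in mobile geometric graphs -/

set_option autoImplicit false

namespace Pool.Agent.Results.MP_e1bfc2_pr.PercTail

open Pool.Agent.TP

/-- For every dimension `k + 2`, radius `r`, step scale `s` and every intensity `lam` above the
percolation threshold, the probability that the percolation time is at least `t` is
`exp (-Θ (expo k t))`, where `expo 0 t = t / log t` and `expo k t = t` for `k ≥ 1`. -/
theorem result (k : ℕ) (r lam s : ℝ) (hr : 0 < r) (hs : 0 < s)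
    (hlam : lamC k r < ENNReal.ofReal lam) :
    ∃ c C : ℝ, 0 < c ∧ c ≤ C ∧ ∃ t₀ : ℕ, ∀ t ≥ t₀,
      Real.exp (-(C * expo k t)) ≤ tail k r lam s t ∧
      tail k r lam s t ≤ Real.exp (-(c * expo k t)) :=
  both_of (upp_of1 H47.ats) low_all k r lam s hr hs hlam

end Pool.Agent.Results.MP_e1bfc2_pr.PercTail
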